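import Mathlib

set_option autoImplicit false

/-!
The free profinite group on two generators, profinite integers (written multiplicatively),
profinite powers, and the endomorphisms `phi l f` of Grothendieck-Teichmuller type.
-/

namespace Pool.Agent.GT

open CategoryTheory ProfiniteGrp ProfiniteGrp.ProfiniteCompletion

/-- The free profinite group on two generators: the profinite completion of the free group on
two generators. -/
abbrev F2 : ProfiniteGrp.{0} := completion (GrpCat.of (FreeGroup (Fin 2)))

/-- The generator `x` of `F2`. -/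
def x : F2 := etaFn (GrpCat.of (FreeGroup (Fin 2))) (FreeGroup.of 0)

/-- The generator `y` of `F2`. -/
def y : F2 := etaFn (GrpCat.of (FreeGroup (Fin 2))) (FreeGroup.of 1)

/-- The continuous homomorphism `f ↦ f(a, b)` from `F2` to a profinite group `P` that sends
`x` to `a` and `y` to `b`. -/
noncomputable def ev {P : ProfiniteGrp.{0}} (a b : P) : F2 →ₜ* P :=
  (lift (GrpCat.ofHom (FreeGroup.lift ![a, b]) :
    GrpCat.of (FreeGroup (Fin 2)) ⟶ GrpCat.of P)).hom

/-- The profinite integers: the profinite completion of the group `ℤ`, written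
multiplicatively (so that products in `Zhat` are sums of profinite integers). -/
abbrev Zhat : ProfiniteGrp.{0} := completion (GrpCat.of (Multiplicative ℤ))

/-- The element `1` of the ring of profinite integers. -/
def gen : Zhat :=
  etaFn (GrpCat.of (Multiplicative ℤ)) (Multiplicative.ofAdd (1 : ℤ) : Multiplicative ℤ)

/-- Profinite powers: `ppow g l` is `g ^ l`, the value at `l` of the continuous homomorphism
from `Zhat` to `P` that sends `1` to `g`. -/
noncomputable def ppow {P : ProfiniteGrp.{0}} (g : P) : Zhat →ₜ* P :=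
  (lift (GrpCat.ofHom (zpowersHom P g) :
    GrpCat.of (Multiplicative ℤ) ⟶ GrpCat.of P)).hom

/-- `l` is a unit of the ring of profinite integers; the product of `l` and `k` in this ring is
`ppow l k`. -/
def IsUnitZ (l : Zhat) : Prop := ∃ k : Zhat, ppow l k = gen

/-- The endomorphism of `F2` with `x ↦ x ^ l` and `y ↦ f⁻¹ y ^ l f`. -/
noncomputable def phi (l : Zhat) (f : F2) : F2 →ₜ* F2 := ev (ppow x l) (f⁻¹ * ppow y l * f)

section universal

variable {P Q : ProfiniteGrp.{0}}

theorem ev_eta (a b : P) (w : FreeGroup (Fin 2)) :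
    ev a b (etaFn (GrpCat.of (FreeGroup (Fin 2))) w) = FreeGroup.lift ![a, b] w := by
  have h := lift_eta (GrpCat.ofHom (FreeGroup.lift ![a, b]) :
    GrpCat.of (FreeGroup (Fin 2)) ⟶ GrpCat.of P)
  exact congrArg (fun k : GrpCat.of (FreeGroup (Fin 2)) ⟶ GrpCat.of P => k.hom w) h

theorem ev_x (a b : P) : ev a b x = a := by
  rw [x, ev_eta]; simp

theorem ev_y (a b : P) : ev a b y = b := by
  rw [y, ev_eta]; simp

theorem ppow_eta (g : P) (n : ℤ) :
    ppow g (etaFn (GrpCat.of (Multiplicative ℤ)) (Multiplicative.ofAdd n : Multiplicative ℤ)) =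
      g ^ n := by
  have h := lift_eta (GrpCat.ofHom (zpowersHom P g) :
    GrpCat.of (Multiplicative ℤ) ⟶ GrpCat.of P)
  exact congrArg (fun k : GrpCat.of (Multiplicative ℤ) ⟶ GrpCat.of P =>
    k.hom (Multiplicative.ofAdd n : Multiplicative ℤ)) h

theorem ppow_gen (g : P) : ppow g gen = g := by
  rw [gen, ppow_eta, zpow_one]

/-- Uniqueness of continuous homomorphisms out of `F2`. -/
theorem hom_ext_F2 (α β : F2 →ₜ* P) (hx : α x = β x) (hy : α y = β y) : α = β := by
  have h : ∀ w : FreeGroup (Fin 2),
      α (etaFn (GrpCat.of (FreeGroup (Fin 2))) w) = β (etaFn (GrpCat.of (FreeGroup (Fin 2))) w) := by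
    let α' : FreeGroup (Fin 2) →* P := α.toMonoidHom.comp
      (eta (GrpCat.of (FreeGroup (Fin 2)))).hom
    let β' : FreeGroup (Fin 2) →* P := β.toMonoidHom.comp
      (eta (GrpCat.of (FreeGroup (Fin 2)))).hom
    have : α' = β' := by
      apply FreeGroup.ext_hom
      intro i
      fin_cases i
      · exact hx
      · exact hy
    intro w
    exact congrArg (fun k : FreeGroup (Fin 2) →* P => k w) this
  ext w
  apply congrFun
  refine (denseRange (G := GrpCat.of (FreeGroup (Fin 2)))).equalizer α.continuous_toFun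
    β.continuous_toFun ?_
  funext w
  exact h w

/-- Uniqueness of continuous homomorphisms out of `Zhat`. -/
theorem hom_ext_Zhat (α β : Zhat →ₜ* P) (h1 : α gen = β gen) : α = β := by
  have h : ∀ w : Multiplicative ℤ,
      α (etaFn (GrpCat.of (Multiplicative ℤ)) w) = β (etaFn (GrpCat.of (Multiplicative ℤ)) w) := by
    let α' : Multiplicative ℤ →* P := α.toMonoidHom.comp
      (eta (GrpCat.of (Multiplicative ℤ))).hom
    let β' : Multiplicative ℤ →* P := β.toMonoidHom.comp
      (eta (GrpCat.of (Multiplicative ℤ))).hom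
    have : α' = β' := by
      apply MonoidHom.ext_mint
      exact h1
    intro w
    exact congrArg (fun k : Multiplicative ℤ →* P => k w) this
  ext w
  apply congrFun
  refine (denseRange (G := GrpCat.of (Multiplicative ℤ))).equalizer α.continuous_toFun
    β.continuous_toFun ?_
  funext w
  exact h w

/-- Naturality of `ev`. -/
theorem map_ev (θ : P →ₜ* Q) (a b : P) (f : F2) : θ (ev a b f) = ev (θ a) (θ b) f := by
  have h : θ.comp (ev a b) = ev (θ a) (θ b) := by
    apply hom_ext_F2
    · rw [ev_x]; change θ (ev a b x) = _; rw [ev_x]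
    · rw [ev_y]; change θ (ev a b y) = _; rw [ev_y]
  exact congrArg (fun k : F2 →ₜ* Q => k f) h

/-- Naturality of `ppow`. -/
theorem map_ppow (θ : P →ₜ* Q) (g : P) (l : Zhat) : θ (ppow g l) = ppow (θ g) l := by
  have h : θ.comp (ppow g) = ppow (θ g) := by
    apply hom_ext_Zhat
    rw [ppow_gen]; change θ (ppow g gen) = _; rw [ppow_gen]
  exact congrArg (fun k : Zhat →ₜ* Q => k l) h

theorem ev_xy (f : F2) : ev x y f = f := by
  have h : ev x y = ContinuousMonoidHom.id F2 := by
    apply hom_ext_F2
    · rw [ev_x]; rfl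
    · rw [ev_y]; rfl
  rw [h]; rfl

theorem ppow_ppow (g : P) (l k : Zhat) : ppow (ppow g l) k = ppow g (ppow l k) :=
  (map_ppow (ppow g) l k).symm

end universal

end Pool.Agent.GT
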