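import Mathlib

set_option autoImplicit false

/-!
The finite group argument: a relation that holds in all wreath-type extensions forces
generation.
-/

namespace Pool.Agent.GT

open Finset

variable {G : Type} [Group G]

/-- The group of order two, written multiplicatively. -/
abbrev M2 : Type := Multiplicative (ZMod 2)

/-- Right translation action of `G` on functions `G → M2`. -/
def act (G : Type) [Group G] : G →* MulAut (G → M2) where
  toFun g :=
    { toFun := fun d h => d (h * g)
      invFun := fun d h => d (h * g⁻¹)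
      left_inv := fun d => by funext h; simp
      right_inv := fun d => by funext h; simp
      map_mul' := fun d e => rfl }
  map_one' := by ext d h; simp
  map_mul' g g' := by
    ext d h
    change d (h * (g * g')) = d (h * g * g')
    rw [mul_assoc]

theorem act_apply (g : G) (d : G → M2) (h : G) : act G g d h = d (h * g) := rfl

/-- The wreath product. -/
abbrev WG (G : Type) [Group G] : Type := SemidirectProduct (G → M2) G (act G)

instance [Finite G] : Finite (WG G) :=
  Finite.of_equiv ((G → M2) × G) (SemidirectProduct.equivProd (φ := act G)).symm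

theorem mul_left_apply (w w' : WG G) (h : G) :
    (w * w').left h = w.left h * w'.left (h * w.right) := rfl

theorem inv_left_apply (w : WG G) (h : G) : (w⁻¹).left h = (w.left (h * w.right⁻¹))⁻¹ := rfl

open Classical in
/-- Product of the coordinates over the coset `H g⁻¹`. -/
noncomputable def tau [Fintype G] (H : Subgroup G) (g : G) (w : WG G) : M2 :=
  ∏ h : G, if h * g ∈ H then w.left h else 1

theorem tau_mul [Fintype G] (H : Subgroup G) (g : G) (w w' : WG G)
    (hw : g⁻¹ * w.right * g ∈ H) : tau H g (w * w') = tau H g w * tau H g w' := by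
  classical
  have h1 : tau H g w' = ∏ h : G, if h * g ∈ H then w'.left (h * w.right) else 1 := by
    unfold tau
    rw [← Equiv.prod_comp (Equiv.mulRight w.right)]
    apply prod_congr rfl
    intro h _
    simp only [Equiv.coe_mulRight]
    have : h * w.right * g ∈ H ↔ h * g ∈ H := by
      have e : h * w.right * g = (h * g) * (g⁻¹ * w.right * g) := by group
      rw [e]
      exact H.mul_mem_cancel_right hw
    exact if_congr this rfl rfl
  rw [h1]
  unfold tau
  rw [← prod_mul_distrib]
  apply prod_congr rfl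
  intro h _
  by_cases h2 : h * g ∈ H
  · simp only [if_pos h2, mul_left_apply]
  · simp only [if_neg h2, mul_one]

/-- The stabiliser of the coset `H g⁻¹`. -/
def stab (H : Subgroup G) (g : G) : Subgroup (WG G) where
  carrier := {w | g⁻¹ * w.right * g ∈ H}
  one_mem' := by simp
  mul_mem' := by
    intro w w' hw hw'
    have e : g⁻¹ * (w * w').right * g = (g⁻¹ * w.right * g) * (g⁻¹ * w'.right * g) := by
      rw [SemidirectProduct.mul_right]; group
    change g⁻¹ * (w * w').right * g ∈ H
    rw [e]
    exact H.mul_mem hw hw'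
  inv_mem' := by
    intro w hw
    have e : g⁻¹ * (w⁻¹).right * g = (g⁻¹ * w.right * g)⁻¹ := by
      rw [SemidirectProduct.inv_right]; group
    change g⁻¹ * (w⁻¹).right * g ∈ H
    rw [e]
    exact H.inv_mem hw

/-- `tau` as a homomorphism on the stabiliser. -/
noncomputable def tauHom [Fintype G] (H : Subgroup G) (g : G) : stab H g →* M2 where
  toFun w := tau H g w
  map_one' := by
    unfold tau
    apply prod_eq_one
    intro h _
    simp
  map_mul' w w' := tau_mul H g w w' w.2

theorem tau_zpow [Fintype G] (H : Subgroup G) (g : G) (w : WG G) (n : ℤ)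
    (hw : g⁻¹ * w.right * g ∈ H) : tau H g (w ^ n) = tau H g w ^ n :=
  map_zpow (tauHom H g) ⟨w, hw⟩ n

theorem tau_conj [Fintype G] (H : Subgroup G) (k w : WG G)
    (hw : k.right⁻¹ * w.right * k.right ∈ H) : tau H 1 (k⁻¹ * w * k) = tau H k.right w := by
  classical
  have h1 : ∀ h : G, (k⁻¹ * w * k).left h =
      (k.left (h * k.right⁻¹))⁻¹ * w.left (h * k.right⁻¹) *
        k.left (h * k.right⁻¹ * w.right) := by
    intro h
    rw [mul_left_apply, mul_left_apply, inv_left_apply, SemidirectProduct.mul_right,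
      SemidirectProduct.inv_right, mul_assoc h]
  have h2 : tau H 1 (k⁻¹ * w * k) = ∏ h : G, if h * k.right ∈ H then
      (k.left h)⁻¹ * w.left h * k.left (h * w.right) else 1 := by
    unfold tau
    rw [← Equiv.prod_comp (Equiv.mulRight k.right)]
    apply prod_congr rfl
    intro h _
    simp only [Equiv.coe_mulRight, mul_one, h1, mul_inv_cancel_right]
  have h3 : (∏ h : G, if h * k.right ∈ H then k.left (h * w.right) else 1) =
      ∏ h : G, if h * k.right ∈ H then k.left h else 1 := by
    symm
    rw [← Equiv.prod_comp (Equiv.mulRight w.right)]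
    apply prod_congr rfl
    intro h _
    simp only [Equiv.coe_mulRight]
    have : h * w.right * k.right ∈ H ↔ h * k.right ∈ H := by
      have e : h * w.right * k.right = (h * k.right) * (k.right⁻¹ * w.right * k.right) := by
        group
      rw [e]
      exact H.mul_mem_cancel_right hw
    exact if_congr this rfl rfl
  have h4 : (∏ h : G, if h * k.right ∈ H then
      (k.left h)⁻¹ * w.left h * k.left (h * w.right) else 1) =
      (∏ h : G, if h * k.right ∈ H then k.left h else 1)⁻¹ * tau H k.right w *
      (∏ h : G, if h * k.right ∈ H then k.left (h * w.right) else 1) := by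
    unfold tau
    rw [← prod_inv_distrib, ← prod_mul_distrib, ← prod_mul_distrib]
    apply prod_congr rfl
    intro h _
    by_cases h2 : h * k.right ∈ H
    · simp only [if_pos h2]
    · simp only [if_neg h2, inv_one, mul_one]
  rw [h2, h4, h3, mul_comm, ← mul_assoc, mul_inv_cancel, one_mul]

/-- The key lemma on finite groups. -/
theorem finite_key [Finite G] (n n' : ℤ) (hn : ∀ v : WG G, (v ^ n) ^ n' = v)
    (x y f g : G)
    (h : ∀ a b : G → M2, ∃ F K : G → M2,
      (⟨a, x⟩ : WG G) ^ n * ((⟨F, f⟩ : WG G)⁻¹ * (⟨b, y⟩ : WG G) ^ n * (⟨F, f⟩ : WG G)) =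
        (⟨K, g⟩ : WG G)⁻¹ * ((⟨a, x⟩ : WG G) * (⟨b, y⟩ : WG G)) ^ n * (⟨K, g⟩ : WG G))
    (H : Subgroup G) (hx : x ^ n ∈ H) (hy : f⁻¹ * y ^ n * f ∈ H) : x ∈ H ∧ y ∈ H := by
  classical
  cases nonempty_fintype G
  -- powers in `G` and `M2`
  have hnG : ∀ v : G, (v ^ n) ^ n' = v := by
    intro v
    have h1 := hn (SemidirectProduct.inr v)
    rw [← map_zpow, ← map_zpow] at h1
    exact SemidirectProduct.inr_injective h1
  have hnM : ∀ m : M2, (m ^ n) ^ n' = m := by
    intro m
    have h1 := hn (SemidirectProduct.inl (fun _ => m))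
    rw [← map_zpow, ← map_zpow] at h1
    exact congrFun (SemidirectProduct.inl_injective h1) 1
  have hxH : x ∈ H := by
    have := H.zpow_mem hx n'
    rwa [hnG] at this
  have hyH : f⁻¹ * y * f ∈ H := by
    have h1 := H.zpow_mem hy n'
    have e : (f⁻¹ * y ^ n * f) ^ n' = f⁻¹ * y * f := by
      have := conj_zpow (a := f⁻¹) (b := y ^ n) (i := n')
      rw [inv_inv, hnG] at this
      exact this
    rwa [e] at h1
  -- the main identity
  have key : ∀ a b : G → M2, tau H 1 (⟨a, x⟩ : WG G) * tau H f (⟨b, y⟩ : WG G) =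
      tau H g ((⟨a, x⟩ : WG G) * (⟨b, y⟩ : WG G)) := by
    intro a b
    obtain ⟨F, K, hFK⟩ := h a b
    set w1 : WG G := ⟨a, x⟩ with hw1
    set w2 : WG G := ⟨b, y⟩ with hw2
    set k1 : WG G := ⟨F, f⟩ with hk1
    set k2 : WG G := ⟨K, g⟩ with hk2
    have r1 : ∀ (w : WG G) (m : ℤ), (w ^ m).right = w.right ^ m := fun w m =>
      map_zpow (SemidirectProduct.rightHom (φ := act G)) w m
    have hr := congrArg (fun w : WG G => w.right) hFK
    simp only [SemidirectProduct.mul_right, SemidirectProduct.inv_right, r1] at hr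
    have hr' : x ^ n * (f⁻¹ * y ^ n * f) = g⁻¹ * (x * y) ^ n * g := hr
    have hgn : g⁻¹ * (x * y) ^ n * g ∈ H := by
      rw [← hr']
      exact H.mul_mem hx hy
    have hg : g⁻¹ * (x * y) * g ∈ H := by
      have h1 := H.zpow_mem hgn n'
      have e : (g⁻¹ * (x * y) ^ n * g) ^ n' = g⁻¹ * (x * y) * g := by
        have := conj_zpow (a := g⁻¹) (b := (x * y) ^ n) (i := n')
        rw [inv_inv, hnG] at this
        exact this
      rwa [e] at h1
    have e1 : tau H 1 (w1 ^ n * (k1⁻¹ * w2 ^ n * k1)) = (tau H 1 w1 * tau H f w2) ^ n := by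
      rw [tau_mul, tau_conj, tau_zpow, tau_zpow, mul_zpow]
      · change f⁻¹ * y * f ∈ H
        exact hyH
      · change 1⁻¹ * x * 1 ∈ H
        simpa using hxH
      · rw [r1]
        change f⁻¹ * y ^ n * f ∈ H
        exact hy
      · rw [r1]
        change 1⁻¹ * x ^ n * 1 ∈ H
        simpa using hx
    have e2 : tau H 1 (k2⁻¹ * (w1 * w2) ^ n * k2) = (tau H g (w1 * w2)) ^ n := by
      rw [tau_conj, tau_zpow]
      · change g⁻¹ * (x * y) * g ∈ H
        exact hg
      · rw [r1]
        change g⁻¹ * (x * y) ^ n * g ∈ H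
        exact hgn
    rw [hFK, e2] at e1
    have e3 := congrArg (fun m : M2 => m ^ n') e1
    simp only [hnM] at e3
    exact e3.symm
  -- test functions
  set m1 : M2 := Multiplicative.ofAdd 1 with hm1
  have hm1' : m1 ≠ 1 := by decide
  have tau_single : ∀ (u v : G) (h0 : G), tau H u (⟨Pi.mulSingle h0 m1, v⟩ : WG G) =
      if h0 * u ∈ H then m1 else 1 := by
    intro u v h0
    unfold tau
    rw [prod_eq_single h0]
    · simp
    · intro b _ hb
      simp [Pi.mulSingle_eq_of_ne hb]
    · intro hb
      exact absurd (mem_univ _) hb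
  have tau_one : ∀ (u v : G), tau H u (⟨1, v⟩ : WG G) = 1 := by
    intro u v
    unfold tau
    apply prod_eq_one
    intro h _
    simp
  have hgH : g ∈ H := by
    have h1 := key (Pi.mulSingle 1 m1) 1
    have h2 : (⟨Pi.mulSingle 1 m1, x⟩ : WG G) * (⟨1, y⟩ : WG G) =
        (⟨Pi.mulSingle 1 m1, x * y⟩ : WG G) := by
      ext h
      · rw [mul_left_apply]; simp
      · rfl
    rw [h2, tau_single, tau_one, tau_single, one_mul, one_mul, if_pos H.one_mem, mul_one] at h1
    by_contra hg
    rw [if_neg hg] at h1
    exact hm1' h1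
  have hfH : f ∈ H := by
    have h1 := key 1 (Pi.mulSingle 1 m1)
    have h2 : (⟨1, x⟩ : WG G) * (⟨Pi.mulSingle 1 m1, y⟩ : WG G) =
        (⟨Pi.mulSingle x⁻¹ m1, x * y⟩ : WG G) := by
      ext h
      · rw [mul_left_apply]
        simp only [Pi.one_apply, one_mul]
        by_cases hh : h = x⁻¹
        · subst hh; simp
        · rw [Pi.mulSingle_eq_of_ne hh, Pi.mulSingle_eq_of_ne]
          intro h3
          exact hh (eq_inv_of_mul_eq_one_left h3)
      · rfl
    rw [h2, tau_single, tau_one, tau_single, one_mul, one_mul,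
      if_pos (H.mul_mem (H.inv_mem hxH) hgH)] at h1
    by_contra hf
    rw [if_neg hf] at h1
    exact hm1' h1.symm
  refine ⟨hxH, ?_⟩
  have : f * (f⁻¹ * y * f) * f⁻¹ ∈ H := H.mul_mem (H.mul_mem hfH hyH) (H.inv_mem hfH)
  have e : f * (f⁻¹ * y * f) * f⁻¹ = y := by group
  rwa [e] at this

end Pool.Agent.GT
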