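import Mathlib
import Pool.Agent.MP_47cbd1_al.Defs
import Pool.Agent.MP_47cbd1_al.Wreath

set_option autoImplicit false

/-!
Surjectivity and injectivity of the endomorphisms `phi l f` that send `x * y` to a conjugate of
`(x * y) ^ l`.
-/

namespace Pool.Agent.GT

open CategoryTheory ProfiniteGrp ProfiniteGrp.ProfiniteCompletion

/-- A finite group as a profinite group. -/
abbrev Fg (W : Type) [Group W] [Finite W] : ProfiniteGrp.{0} := ofFiniteGrp (FiniteGrp.of W)

section finite

variable {W : Type} [Group W] [Finite W]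

/-- Evaluation homomorphism to a finite group. -/
noncomputable def evF (u v : W) : F2 →* W where
  toFun w := ev (P := Fg W) u v w
  map_one' := map_one (ev (P := Fg W) u v)
  map_mul' := map_mul (ev (P := Fg W) u v)

/-- Profinite powers in a finite group. -/
noncomputable def powF (w : W) (l : Zhat) : W := ppow (P := Fg W) w l

theorem evF_x (u v : W) : evF u v x = u := ev_x (P := Fg W) u v

theorem evF_y (u v : W) : evF u v y = v := ev_y (P := Fg W) u v

theorem evF_ppow (u v : W) (w : F2) (l : Zhat) : evF u v (ppow w l) = powF (evF u v w) l :=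
  map_ppow (ev (P := Fg W) u v) w l

theorem powF_powF (w : W) (l k : Zhat) : powF (powF w l) k = powF w (ppow l k) :=
  ppow_ppow (P := Fg W) w l k

theorem powF_gen (w : W) : powF w gen = w := ppow_gen (P := Fg W) w

/-- On a finite group, taking `l`-th powers agrees with taking `n`-th powers for some integer. -/
theorem exists_int (W : Type) [Group W] [Finite W] (l : Zhat) :
    ∃ n : ℤ, ∀ v : W, powF v l = v ^ n := by
  have hopen : IsOpen (⋂ v : W, (ppow (P := Fg W) v) ⁻¹' {ppow (P := Fg W) v l}) := by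
    apply isOpen_iInter_of_finite
    intro v
    have hd : DiscreteTopology (Fg W) := ⟨rfl⟩
    exact (isOpen_discrete _).preimage (ppow (P := Fg W) v).continuous_toFun
  have hne : (⋂ v : W, (ppow (P := Fg W) v) ⁻¹' {ppow (P := Fg W) v l}).Nonempty := by
    refine ⟨l, ?_⟩
    simp
  obtain ⟨w, hw⟩ := (denseRange (G := GrpCat.of (Multiplicative ℤ))).exists_mem_open hopen hne
  refine ⟨Multiplicative.toAdd (show Multiplicative ℤ from w), fun v => ?_⟩
  have h1 := Set.mem_iInter.1 hw v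
  have h2 : ppow (P := Fg W) v (etaFn (GrpCat.of (Multiplicative ℤ)) w) =
      ppow (P := Fg W) v l := h1
  change ppow (P := Fg W) v l = _
  rw [← h2]
  exact ppow_eta (P := Fg W) v _

/-- Continuous homomorphism between finite groups. -/
def finHom {V : Type} [Group V] [Finite V] (θ : W →* V) : Fg W →ₜ* Fg V where
  toFun := θ
  map_one' := map_one θ
  map_mul' := map_mul θ
  continuous_toFun := by
    have hd : DiscreteTopology (Fg W) := ⟨rfl⟩
    exact continuous_of_discreteTopology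

theorem map_evF {V : Type} [Group V] [Finite V] (θ : W →* V) (u v : W) (w : F2) :
    θ (evF u v w) = evF (θ u) (θ v) w :=
  map_ev (P := Fg W) (Q := Fg V) (finHom θ) u v w

end finite

/-- The image of `φ` in every finite quotient contains the images of the generators. -/
theorem mem_image (φ : F2 →ₜ* F2) (l : Zhat) (hl : IsUnitZ l) (f g : F2)
    (hφx : φ x = ppow x l) (hφy : φ y = f⁻¹ * ppow y l * f)
    (hφ : φ (x * y) = g⁻¹ * ppow (x * y) l * g) (G : Type) [Group G] [Finite G] (u v : G) :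
    (∃ w, evF u v (φ w) = u) ∧ (∃ w, evF u v (φ w) = v) := by
  obtain ⟨k, hk⟩ := hl
  obtain ⟨n, hn⟩ := exists_int (WG G) l
  obtain ⟨n', hn'⟩ := exists_int (WG G) k
  have hnn : ∀ w : WG G, (w ^ n) ^ n' = w := by
    intro w
    rw [← hn' (w ^ n), ← hn w, powF_powF, hk, powF_gen]
  let H : Subgroup G := ((evF u v).comp φ.toMonoidHom).range
  have hright : ∀ (a b : G → M2) (w : F2),
      (evF (⟨a, u⟩ : WG G) (⟨b, v⟩ : WG G) w).right = evF u v w := by
    intro a b w
    have h := map_evF (SemidirectProduct.rightHom (φ := act G)) (⟨a, u⟩ : WG G) (⟨b, v⟩ : WG G) w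
    exact h
  have hpow : ∀ (a b : G → M2) (w : F2),
      evF (⟨a, u⟩ : WG G) (⟨b, v⟩ : WG G) (ppow w l) =
        (evF (⟨a, u⟩ : WG G) (⟨b, v⟩ : WG G) w) ^ n := by
    intro a b w
    rw [evF_ppow, hn]
  have hGpow : ∀ w : F2, evF u v (ppow w l) = (evF u v w) ^ n := by
    intro w
    rw [← hright 1 1, ← hright 1 1, hpow]
    exact map_zpow (SemidirectProduct.rightHom (φ := act G)) _ n
  have hkey := finite_key n n' hnn u v (evF u v f) (evF u v g) (by
    intro a b
    refine ⟨(evF (⟨a, u⟩ : WG G) (⟨b, v⟩ : WG G) f).left,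
      (evF (⟨a, u⟩ : WG G) (⟨b, v⟩ : WG G) g).left, ?_⟩
    have ef : (⟨(evF (⟨a, u⟩ : WG G) (⟨b, v⟩ : WG G) f).left, evF u v f⟩ : WG G) =
        evF (⟨a, u⟩ : WG G) (⟨b, v⟩ : WG G) f := by
      rw [← hright a b f]
    have eg : (⟨(evF (⟨a, u⟩ : WG G) (⟨b, v⟩ : WG G) g).left, evF u v g⟩ : WG G) =
        evF (⟨a, u⟩ : WG G) (⟨b, v⟩ : WG G) g := by
      rw [← hright a b g]
    rw [ef, eg]
    have h1 := congrArg (evF (⟨a, u⟩ : WG G) (⟨b, v⟩ : WG G)) hφ
    rw [map_mul φ, map_mul, hφx, hφy] at h1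
    simp only [map_mul, map_inv, hpow, evF_x, evF_y] at h1
    exact h1) H (by
      refine ⟨x, ?_⟩
      change evF u v (φ x) = u ^ n
      rw [hφx, hGpow, evF_x]) (by
      refine ⟨y, ?_⟩
      change evF u v (φ y) = _
      rw [hφy, map_mul, map_mul, map_inv, hGpow, evF_y])
  obtain ⟨⟨w1, hw1⟩, ⟨w2, hw2⟩⟩ := hkey
  exact ⟨⟨w1, hw1⟩, ⟨w2, hw2⟩⟩

/-- A closed subgroup of `F2` containing `x` and `y` is everything. -/
theorem eq_top_of_isClosed (K : Subgroup F2) (hK : IsClosed (K : Set F2)) (hx : x ∈ K)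
    (hy : y ∈ K) : K = ⊤ := by
  have h1 : ∀ w : FreeGroup (Fin 2), etaFn (GrpCat.of (FreeGroup (Fin 2))) w ∈ K := by
    intro w
    let η : FreeGroup (Fin 2) →* F2 := (eta (GrpCat.of (FreeGroup (Fin 2)))).hom
    have h2 : (⊤ : Subgroup (FreeGroup (Fin 2))) ≤ K.comap η := by
      rw [← FreeGroup.closure_range_of, Subgroup.closure_le]
      rintro _ ⟨i, rfl⟩
      fin_cases i
      · exact hx
      · exact hy
    exact h2 (Subgroup.mem_top w)
  have h2 : closure (Set.range (etaFn (GrpCat.of (FreeGroup (Fin 2))))) ⊆ (K : Set F2) := by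
    apply hK.closure_subset_iff.2
    rintro _ ⟨w, rfl⟩
    exact h1 w
  rw [(denseRange (G := GrpCat.of (FreeGroup (Fin 2)))).closure_range] at h2
  rw [eq_top_iff]
  intro w _
  exact h2 (Set.mem_univ w)

/-- Finite quotients of `F2` separate points from closed subgroups. -/
theorem surjective_of_finite (φ : F2 →ₜ* F2)
    (h : ∀ (G : Type) [Group G] [Finite G] (u v : G),
      (∃ w, evF u v (φ w) = u) ∧ (∃ w, evF u v (φ w) = v)) : Function.Surjective φ := by
  have hclosed : IsClosed (Set.range φ) := φ.continuous_toFun.isClosedMap.isClosed_range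
  intro w
  by_contra hw
  have hw' : w ∈ (Set.range φ)ᶜ := hw
  -- an open normal subgroup `N` with `w N` disjoint from the range
  have hopen : IsOpen ((fun z => w * z) ⁻¹' (Set.range φ)ᶜ) :=
    hclosed.isOpen_compl.preimage (continuous_const_mul w)
  have h1 : (1 : F2) ∈ (fun z => w * z) ⁻¹' (Set.range φ)ᶜ := by
    change w * 1 ∈ (Set.range φ)ᶜ
    rw [mul_one]; exact hw'
  obtain ⟨N, hN⟩ := exist_openNormalSubgroup_sub_open_nhds_of_one hopen h1
  have hfin : Finite (F2 ⧸ N.toSubgroup) := inferInstance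
  -- the quotient map is an evaluation map
  let q : F2 →ₜ* Fg (F2 ⧸ N.toSubgroup) := (proj N).hom
  have hq : ∀ z : F2, (q z : F2 ⧸ N.toSubgroup) = (z : F2 ⧸ N.toSubgroup) := fun z => rfl
  have hqe : ∀ z : F2, (z : F2 ⧸ N.toSubgroup) =
      evF (x : F2 ⧸ N.toSubgroup) (y : F2 ⧸ N.toSubgroup) z := by
    intro z
    have h2 : q = ev (P := Fg (F2 ⧸ N.toSubgroup)) (x : F2 ⧸ N.toSubgroup)
        (y : F2 ⧸ N.toSubgroup) := by
      apply hom_ext_F2
      · exact (ev_x (P := Fg (F2 ⧸ N.toSubgroup)) _ _).symm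
      · exact (ev_y (P := Fg (F2 ⧸ N.toSubgroup)) _ _).symm
    have h3 := congrArg (fun k : F2 →ₜ* Fg (F2 ⧸ N.toSubgroup) => k z) h2
    exact h3
  obtain ⟨⟨w1, hw1⟩, ⟨w2, hw2⟩⟩ := h (F2 ⧸ N.toSubgroup) (x : F2 ⧸ N.toSubgroup)
    (y : F2 ⧸ N.toSubgroup)
  rw [← hqe] at hw1 hw2
  -- the preimage of the image of `φ` is a closed subgroup containing `x`, `y`
  let K : Subgroup F2 :=
    (((QuotientGroup.mk' N.toSubgroup).comp φ.toMonoidHom).range).comap
      (QuotientGroup.mk' N.toSubgroup)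
  have hKclosed : IsClosed (K : Set F2) := by
    apply Subgroup.isClosed_of_isOpen
    apply Subgroup.isOpen_mono (H₁ := N.toSubgroup)
    · intro z hz
      change (QuotientGroup.mk' N.toSubgroup) z ∈
        ((QuotientGroup.mk' N.toSubgroup).comp φ.toMonoidHom).range
      have : (QuotientGroup.mk' N.toSubgroup) z = 1 := (QuotientGroup.eq_one_iff z).2 hz
      rw [this]
      exact Subgroup.one_mem _
    · exact N.toOpenSubgroup.isOpen'
  have hKtop := eq_top_of_isClosed K hKclosed ⟨w1, hw1⟩ ⟨w2, hw2⟩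
  have hwK : w ∈ K := by rw [hKtop]; exact Subgroup.mem_top w
  obtain ⟨z, hz⟩ := hwK
  have hz' : ((φ z : F2) : F2 ⧸ N.toSubgroup) = (w : F2 ⧸ N.toSubgroup) := hz
  have h4 : w⁻¹ * φ z ∈ N.toSubgroup := QuotientGroup.eq.1 hz'.symm
  have h5 := hN h4
  apply h5
  refine ⟨z, ?_⟩
  simp

/-- `F2` is Hopfian. -/
theorem injective_of_surjective (φ : F2 →ₜ* F2) (hφ : Function.Surjective φ) :
    Function.Injective φ := by
  rw [injective_iff_map_eq_one]
  intro w hw
  by_contra hne
  obtain ⟨N, hN⟩ := exist_openNormalSubgroup_sub_open_nhds_of_one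
    (isOpen_compl_singleton (x := w)) (fun h => hne (Set.mem_singleton_iff.1 h).symm)
  have hfin : Finite (F2 ⧸ N.toSubgroup) := inferInstance
  let P := Fg (F2 ⧸ N.toSubgroup)
  have hfinP : Finite P := hfin
  let q : F2 →ₜ* P := (proj N).hom
  have hfinHom : Finite (F2 →ₜ* P) := by
    apply Finite.of_injective (fun θ : F2 →ₜ* P => (θ x, θ y))
    intro θ θ' h
    exact hom_ext_F2 θ θ' (Prod.ext_iff.1 h).1 (Prod.ext_iff.1 h).2
  have hinj : Function.Injective (fun θ : F2 →ₜ* P => θ.comp φ) := by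
    intro θ θ' h
    ext z
    obtain ⟨z', rfl⟩ := hφ z
    exact congrArg (fun k : F2 →ₜ* P => k z') h
  have hsurj := Finite.surjective_of_injective hinj
  obtain ⟨θ, hθ⟩ := hsurj q
  have h1 : q w = 1 := by
    rw [← hθ]
    change θ (φ w) = 1
    rw [hw, map_one]
  have h2 : w ∈ N.toSubgroup := (QuotientGroup.eq_one_iff w).1 h1
  exact hN h2 rfl

/-- If `φ` sends `x`, `y`, `x * y` to conjugates of their `l`-th powers for a unit `l` of the
profinite integers, then `φ` is bijective. -/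
theorem bijective_of_conj (φ : F2 →ₜ* F2) (l : Zhat) (hl : IsUnitZ l) (f g : F2)
    (hφx : φ x = ppow x l) (hφy : φ y = f⁻¹ * ppow y l * f)
    (hφ : φ (x * y) = g⁻¹ * ppow (x * y) l * g) : Function.Bijective φ := by
  have hs : Function.Surjective φ :=
    surjective_of_finite φ fun G _ _ u v => mem_image φ l hl f g hφx hφy hφ G u v
  exact ⟨injective_of_surjective φ hs, hs⟩

end Pool.Agent.GT
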