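import Mathlib
import Pool.Agent.MP_47cbd1_al.Surj

set_option autoImplicit false

/-!
The relations (I) and (II) of the Grothendieck-Teichmuller monoid imply that `x * y` is sent to a
conjugate of `(x * y) ^ l`.
-/

namespace Pool.Agent.GT

open CategoryTheory ProfiniteGrp ProfiniteGrp.ProfiniteCompletion

variable {P : ProfiniteGrp.{0}}

/-- Conjugation as a continuous homomorphism. -/
def conjHom (g : P) : P →ₜ* P where
  toFun w := g * w * g⁻¹
  map_one' := by simp
  map_mul' a b := by group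
  continuous_toFun := (continuous_const_mul g).mul continuous_const

theorem conjHom_apply (g w : P) : conjHom g w = g * w * g⁻¹ := rfl

theorem Zhat_comm (l k : Zhat) : l * k = k * l := by
  have h1 : conjHom gen = ContinuousMonoidHom.id Zhat := by
    apply hom_ext_Zhat
    rw [conjHom_apply, mul_inv_cancel_right]
    rfl
  have h2 : ∀ l : Zhat, gen * l = l * gen := by
    intro l
    have h := congrArg (fun θ : Zhat →ₜ* Zhat => θ l) h1
    have h' : gen * l * gen⁻¹ = l := h
    rw [mul_inv_eq_iff_eq_mul] at h'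
    exact h'
  have h3 : conjHom l = ContinuousMonoidHom.id Zhat := by
    apply hom_ext_Zhat
    rw [conjHom_apply, ← h2, mul_inv_cancel_right]
    rfl
  have h := congrArg (fun θ : Zhat →ₜ* Zhat => θ k) h3
  have h' : l * k * l⁻¹ = k := h
  rwa [mul_inv_eq_iff_eq_mul] at h'

theorem ppow_comm_self (g : P) (m : Zhat) : ppow g m * g = g * ppow g m := by
  have h : ppow g (m * gen) = ppow g (gen * m) := by rw [Zhat_comm]
  rw [map_mul, map_mul, ppow_gen] at h
  exact h

theorem ppow_inv (g : P) (l : Zhat) : ppow g⁻¹ l = (ppow g l)⁻¹ := by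
  let θ : Zhat →ₜ* P :=
    { toFun := fun k => (ppow g k)⁻¹
      map_one' := by simp
      map_mul' := by
        intro a b
        rw [Zhat_comm, map_mul, mul_inv_rev]
      continuous_toFun := (ppow g).continuous_toFun.inv }
  have h : ppow g⁻¹ = θ := by
    apply hom_ext_Zhat
    rw [ppow_gen]
    change g⁻¹ = (ppow g gen)⁻¹
    rw [ppow_gen]
  exact congrArg (fun k : Zhat →ₜ* P => k l) h

theorem ev_conj (g a b : P) (f : F2) :
    ev (g * a * g⁻¹) (g * b * g⁻¹) f = g * ev a b f * g⁻¹ :=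
  (map_ev (conjHom g) a b f).symm

theorem ppow_conj (g a : P) (l : Zhat) : ppow (g * a * g⁻¹) l = g * ppow a l * g⁻¹ :=
  (map_ppow (conjHom g) a l).symm

/-- The third generator `z = (x y)⁻¹`, so that `x y z = 1`. -/
noncomputable def z : F2 := (x * y)⁻¹

/-- Relation (I): `f(x, y) f(y, x) = 1`. -/
def RelI (f : F2) : Prop := f * ev y x f = 1

/-- Relation (II): `f(z, x) z ^ m f(y, z) y ^ m f(x, y) x ^ m = 1`, where `x y z = 1`. -/
def RelII (m : Zhat) (f : F2) : Prop :=
  ev z x f * ppow z m * ev y z f * ppow y m * f * ppow x m = 1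

/-- The profinite integer `1 + 2 m` (the group `Zhat` is written multiplicatively). -/
def oneAddTwo (m : Zhat) : Zhat := gen * m * m

theorem ppow_oneAddTwo (g : P) (m : Zhat) : ppow g (oneAddTwo m) = g * ppow g m * ppow g m := by
  rw [oneAddTwo, map_mul, map_mul, ppow_gen]

/-- Pure group theory behind the next statement. -/
theorem group_identity {G : Type*} [Group G] (x y z p q r xm ym zm : G) (hz : z = (x * y)⁻¹)
    (cx : xm * x = x * xm) (cy : ym * y = y * ym) (cz : zm * z = z * zm)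
    (h1 : r * zm * q * ym * p * xm = 1)
    (h2 : (y * q⁻¹ * y⁻¹) * (y * zm * y⁻¹) * (x⁻¹ * r⁻¹ * x) * xm * p⁻¹ * ym = 1) :
    (x * xm * xm) * (p⁻¹ * (y * ym * ym) * p) =
      (xm * r) * (z * zm * zm)⁻¹ * (xm * r)⁻¹ := by
  have hq : q⁻¹ = ym * p * xm * r * zm := by
    have h : q⁻¹ = q⁻¹ * (zm⁻¹ * r⁻¹ * (r * zm * q * ym * p * xm) * r * zm) := by
      rw [h1]; group
    rw [h]; group
  rw [hq] at h2
  -- `h2` becomes `y ym p xm r zm zm z r⁻¹ x xm p⁻¹ ym = 1`
  have h3 : y * ym * p * xm * r * zm * zm * z * r⁻¹ * x * xm * p⁻¹ * ym = 1 := by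
    rw [← h2, hz]
    group
  have h4 : ym * (y * ym) * p * xm * r * (zm * zm * z) * r⁻¹ * x * xm * p⁻¹ = 1 := by
    have e : ym * (y * ym) * p * xm * r * (zm * zm * z) * r⁻¹ * x * xm * p⁻¹ =
        ym * (y * ym * p * xm * r * zm * zm * z * r⁻¹ * x * xm * p⁻¹ * ym) * ym⁻¹ := by group
    rw [e, h3]; group
  have e1 : ym * (y * ym) = y * ym * ym := by rw [← mul_assoc, cy]
  have e2 : zm * zm * z = z * zm * zm := by rw [mul_assoc, cz, ← mul_assoc, cz]
  rw [e1, e2] at h4
  have e3 : x * xm * xm = xm * (x * xm) := by rw [← mul_assoc, cx]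
  have e5 : r⁻¹ * x * xm * p⁻¹ = (xm * r)⁻¹ * (x * xm * xm) * p⁻¹ := by rw [e3]; group
  have h5 : (y * ym * ym) * p * (xm * r) * (z * zm * zm) * (xm * r)⁻¹ * (x * xm * xm) * p⁻¹ = 1 := by
    calc (y * ym * ym) * p * (xm * r) * (z * zm * zm) * (xm * r)⁻¹ * (x * xm * xm) * p⁻¹
        = ((y * ym * ym) * p * (xm * r) * (z * zm * zm)) *
            ((xm * r)⁻¹ * (x * xm * xm) * p⁻¹) := by
          simp only [mul_assoc]
      _ = ((y * ym * ym) * p * (xm * r) * (z * zm * zm)) * (r⁻¹ * x * xm * p⁻¹) := by rw [e5]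
      _ = y * ym * ym * p * xm * r * (z * zm * zm) * r⁻¹ * x * xm * p⁻¹ := by
          simp only [mul_assoc]
      _ = 1 := h4
  have h6 : (x * xm * xm) * (p⁻¹ * (y * ym * ym) * p) *
      ((xm * r) * (z * zm * zm) * (xm * r)⁻¹) = 1 := by
    have e : (x * xm * xm) * (p⁻¹ * (y * ym * ym) * p) *
        ((xm * r) * (z * zm * zm) * (xm * r)⁻¹) =
        (x * xm * xm) * p⁻¹ * ((y * ym * ym) * p * (xm * r) * (z * zm * zm) * (xm * r)⁻¹ *
        (x * xm * xm) * p⁻¹) * ((x * xm * xm) * p⁻¹)⁻¹ := by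
      generalize x * xm * xm = X
      generalize y * ym * ym = Y
      generalize z * zm * zm = Z
      generalize xm * r = R
      group
    rw [e, h5]; group
  rw [mul_eq_one_iff_eq_inv] at h6
  rw [h6]
  group

/-- Relations (I) and (II) imply that `phi` sends `x * y` to a conjugate of its power. -/
theorem phi_xy_of_relations (m : Zhat) (f : F2) (hI : RelI f) (hII : RelII m f) :
    ∃ g : F2, phi (oneAddTwo m) f (x * y) = g⁻¹ * ppow (x * y) (oneAddTwo m) * g := by
  -- relation (I) in all substitutions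
  have hsub : ∀ a b : F2, ev b a f = (ev a b f)⁻¹ := by
    intro a b
    have h := congrArg (ev a b) hI
    rw [map_mul, map_one, map_ev, ev_x, ev_y] at h
    exact (inv_eq_of_mul_eq_one_right h).symm
  have hyx : ev y x f = f⁻¹ := by
    rw [hsub x y, ev_xy]
  -- apply the swap to relation (II)
  have h2 := congrArg (ev y x) hII
  simp only [map_mul, map_one] at h2
  rw [map_ev, map_ev, map_ppow, map_ppow, map_ppow, ev_x, ev_y] at h2
  have hz' : ev y x z = y * z * y⁻¹ := by
    rw [z, map_inv, map_mul, ev_x, ev_y]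
    group
  have hz'' : y * z * y⁻¹ = x⁻¹ * z * x := by
    rw [z]; group
  have e1 : ev (y * z * y⁻¹) y f = y * (ev y z f)⁻¹ * y⁻¹ := by
    have h := ev_conj y z y f
    rw [mul_inv_cancel_right] at h
    rw [h, hsub y z]
  have e2 : ev x (y * z * y⁻¹) f = x⁻¹ * (ev z x f)⁻¹ * x := by
    have h := ev_conj x⁻¹ x z f
    rw [inv_inv, inv_mul_cancel, one_mul] at h
    rw [hz'', h, hsub z x]
  have e3 : ppow (y * z * y⁻¹) m = y * ppow z m * y⁻¹ := ppow_conj y z m
  rw [hz', e1, e2, e3, hyx] at h2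
  have key := group_identity x y z f (ev y z f) (ev z x f) (ppow x m) (ppow y m) (ppow z m) rfl
    (ppow_comm_self x m) (ppow_comm_self y m) (ppow_comm_self z m) hII h2
  refine ⟨(ppow x m * ev z x f)⁻¹, ?_⟩
  have hxy : x * y = z⁻¹ := by rw [z, inv_inv]
  rw [map_mul, phi, ev_x, ev_y, inv_inv, hxy, ppow_inv, ppow_oneAddTwo, ppow_oneAddTwo,
    ppow_oneAddTwo]
  exact key

end Pool.Agent.GT
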